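import Mathlib
import Pool.Agent.N382.BH.Lower
import Pool.Agent.N382.BH.Upper

/-!
# `Bh(m, I₂ × I₂ × I₂)` has order at least `m³`

Four classes of vertices `F_q² × F_q`, `q` a power of three. The members are the 4-sets
`{(x_i, c + A_i(x)) : i}` with `A_l(x) = |∑_i s_{li} x_i|²`, where `s` is a conference matrix of
order four; since `s sᵀ = 3 I = 0` the four equations on the triples of a member are dependent and
there are `q⁹` members. After a suitable choice of disjoint sets of heights no copy of the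
octahedron `K_{2,2,2}` is contained in the shadow. The columns of weight at most three alone give
only `O(m^(11/4))`.
-/

set_option autoImplicit false

namespace Pool.Agent.Results.MP_be95e3_co.CubicBerge

open Filter Topology Asymptotics Pool.Agent.N382.BH

theorem bddAbove_f {ρ κ ρ' κ' : Type} (m : ℕ) (F : Matrix ρ κ Bool) (P : Matrix ρ' κ' Bool) :
    BddAbove {n : ℕ | ∃ A : Matrix (Fin m) (Fin n) Bool,
      IsSimple A ∧ Berge A P ∧ ¬ Berge F A} := by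
  refine (bddAbove_Bh m F).mono ?_
  rintro n ⟨A, a, -, b⟩
  exact ⟨A, a, b⟩

theorem one_le_f {k : ℕ} (hk : 1 ≤ k) : 1 ≤ fBerge (3 * k) (cubeI 2) (cubeI k) := by
  refine le_csSup (bddAbove_f _ _ _) ?_
  refine ⟨fun _ _ => false, ?_, ?_, ?_⟩
  · intro j j' _
    exact Subsingleton.elim _ _
  · have h1 : Fintype.card (Fin (3 * k)) = Fintype.card ((Fin k ⊕ Fin k) ⊕ Fin k) := by
      simp only [Fintype.card_fin, Fintype.card_sum]; ring
    refine ⟨(Fintype.equivOfCardEq h1).toEmbedding,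
      ⟨fun _ => ((⟨0, hk⟩, ⟨0, hk⟩), ⟨0, hk⟩), fun _ _ _ => Subsingleton.elim _ _⟩, ?_⟩
    intro i j
    exact bot_le
  · rintro ⟨-, c, -⟩
    have h1 := Fintype.card_le_of_injective _ c.injective
    simp at h1

theorem ratio_tendsto :
    Tendsto (fun k : ℕ => (Bh (3 * k) (cubeI 2) : ℝ) / fBerge (3 * k) (cubeI 2) (cubeI k))
      atTop atTop := by
  have h1 : Tendsto (fun k : ℕ => (1 / (7776 ^ 3 * 10) : ℝ) * (k : ℝ) ^ ((1 : ℝ) / 4))
      atTop atTop := by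
    refine Tendsto.const_mul_atTop (by norm_num) ?_
    exact (tendsto_rpow_atTop (by norm_num)).comp tendsto_natCast_atTop_atTop
  refine tendsto_atTop_mono' atTop ?_ h1
  filter_upwards [eventually_ge_atTop 57395628] with k hk
  have hk1 : 1 ≤ k := by omega
  have hk0 : (0 : ℝ) < k := by exact_mod_cast hk1
  have hlow := lower_bound (3 * k) (by omega)
  have hup := f_upper hk1
  have hf : (1 : ℝ) ≤ fBerge (3 * k) (cubeI 2) (cubeI k) := by exact_mod_cast one_le_f hk1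
  rw [le_div_iff₀ (by linarith)]
  have h2 : (((3 * k : ℕ) : ℝ) / 23328) ^ 3 = (k : ℝ) ^ 3 / 7776 ^ 3 := by
    push_cast; ring
  rw [h2] at hlow
  have h3 : (k : ℝ) ^ ((1 : ℝ) / 4) * (k : ℝ) ^ ((11 : ℝ) / 4) = (k : ℝ) ^ 3 := by
    rw [← Real.rpow_add hk0, ← Real.rpow_natCast]
    norm_num
  calc (1 / (7776 ^ 3 * 10) : ℝ) * (k : ℝ) ^ ((1 : ℝ) / 4) *
        (fBerge (3 * k) (cubeI 2) (cubeI k) : ℝ)
      ≤ (1 / (7776 ^ 3 * 10) : ℝ) * (k : ℝ) ^ ((1 : ℝ) / 4) *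
        (10 * (k : ℝ) ^ ((11 : ℝ) / 4)) := by
        refine mul_le_mul_of_nonneg_left hup ?_
        positivity
    _ = ((k : ℝ) ^ ((1 : ℝ) / 4) * (k : ℝ) ^ ((11 : ℝ) / 4)) / 7776 ^ 3 := by ring
    _ = (k : ℝ) ^ 3 / 7776 ^ 3 := by rw [h3]
    _ ≤ _ := hlow

/-- **Main theorem.** `Bh(m, I₂ × I₂ × I₂) ≥ (m/23328)³` for all large `m`, whereas
`f(I₂ × I₂ × I₂, I_k × I_k × I_k) ≤ 10 k^(11/4)`; hence the ratio of the two quantities for
`m = 3k` tends to infinity, and `Bh(m, I₂ × I₂ × I₂)` is not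
`Θ(f(I₂ × I₂ × I₂, I_{m/3} × I_{m/3} × I_{m/3}))`. -/
theorem result :
    (∀ m : ℕ, 57395628 ≤ m → ((m : ℝ) / 23328) ^ 3 ≤ Bh m (cubeI 2)) ∧
    (∀ k : ℕ, 1 ≤ k →
      (fBerge (3 * k) (cubeI 2) (cubeI k) : ℝ) ≤ 10 * (k : ℝ) ^ ((11 : ℝ) / 4)) ∧
    Tendsto (fun k : ℕ => (Bh (3 * k) (cubeI 2) : ℝ) / fBerge (3 * k) (cubeI 2) (cubeI k))
      atTop atTop ∧
    ¬ (fun k : ℕ => (Bh (3 * k) (cubeI 2) : ℝ)) =Θ[atTop]
      fun k : ℕ => (fBerge (3 * k) (cubeI 2) (cubeI k) : ℝ) := by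
  refine ⟨fun m hm => lower_bound m hm, fun k hk => f_upper hk, ratio_tendsto, ?_⟩
  intro hΘ
  obtain ⟨C, hC⟩ := hΘ.1.bound
  obtain ⟨k, hk1, hk2, hk3⟩ := ((hC.and ((ratio_tendsto.eventually_gt_atTop C).and
    (eventually_ge_atTop 1))).exists)
  have hf : (1 : ℝ) ≤ fBerge (3 * k) (cubeI 2) (cubeI k) := by exact_mod_cast one_le_f hk3
  rw [lt_div_iff₀ (by linarith)] at hk2
  rw [Real.norm_of_nonneg (Nat.cast_nonneg _), Real.norm_of_nonneg (Nat.cast_nonneg _)] at hk1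
  linarith

end Pool.Agent.Results.MP_be95e3_co.CubicBerge
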